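import Mathlib

/-!
# Second polynomial numerical index of `C(K)` (real scalars) and `L¹[0,1]`
-/

set_option autoImplicit false

namespace Pool.Agent.Y473.NI

open MeasureTheory

variable {𝕜 X : Type} [RCLike 𝕜] [NormedAddCommGroup X] [NormedSpace 𝕜 X]

/-- The norm of the `k`-homogeneous polynomial `P x = A (x, …, x)`. -/
noncomputable def polyNorm {k : ℕ} (A : ContinuousMultilinearMap 𝕜 (fun _ : Fin k => X) X) : ℝ :=
  sSup {r : ℝ | ∃ x : X, ‖x‖ = 1 ∧ r = ‖A (fun _ => x)‖}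

/-- The numerical radius of the `k`-homogeneous polynomial `P x = A (x, …, x)`. -/
noncomputable def numRadius {k : ℕ} (A : ContinuousMultilinearMap 𝕜 (fun _ : Fin k => X) X) : ℝ :=
  sSup {r : ℝ | ∃ (x : X) (φ : X →L[𝕜] 𝕜), ‖x‖ = 1 ∧ ‖φ‖ = 1 ∧ φ x = 1 ∧ r = ‖φ (A (fun _ => x))‖}

variable (𝕜 X) in
/-- The `k`-th polynomial numerical index of `X`. -/
noncomputable def polyIndex (k : ℕ) : ℝ :=
  sInf {r : ℝ | ∃ A : ContinuousMultilinearMap 𝕜 (fun _ : Fin k => X) X,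
    polyNorm A = 1 ∧ r = numRadius A}

/-- The continuous bilinear map `B` as a continuous multilinear map. -/
noncomputable def ofBilin (B : X →L[𝕜] X →L[𝕜] X) :
    ContinuousMultilinearMap 𝕜 (fun _ : Fin 2 => X) X :=
  MultilinearMap.mkContinuous
    { toFun := fun m => B (m 0) (m 1)
      map_update_add' := by
        intro _ m i x y
        fin_cases i <;> simp [Function.update]
      map_update_smul' := by
        intro _ m i c x
        fin_cases i <;> simp [Function.update] }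
    ‖B‖ (by
      intro m
      have h := B.le_opNorm₂ (m 0) (m 1)
      simpa [Fin.prod_univ_two, mul_assoc] using h)

@[simp] lemma ofBilin_apply (B : X →L[𝕜] X →L[𝕜] X) (x : X) :
    ofBilin B (fun _ => x) = B x x := rfl

lemma bdd_polyNorm {k : ℕ} (A : ContinuousMultilinearMap 𝕜 (fun _ : Fin k => X) X) :
    BddAbove {r : ℝ | ∃ x : X, ‖x‖ = 1 ∧ r = ‖A (fun _ => x)‖} := by
  refine ⟨‖A‖, ?_⟩
  rintro r ⟨x, hx, rfl⟩
  have h := A.le_opNorm (fun _ => x)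
  simpa [hx] using h

lemma bdd_numRadius {k : ℕ} (A : ContinuousMultilinearMap 𝕜 (fun _ : Fin k => X) X) :
    BddAbove {r : ℝ | ∃ (x : X) (φ : X →L[𝕜] 𝕜), ‖x‖ = 1 ∧ ‖φ‖ = 1 ∧ φ x = 1 ∧
      r = ‖φ (A (fun _ => x))‖} := by
  refine ⟨‖A‖, ?_⟩
  rintro r ⟨x, φ, hx, hφ, -, rfl⟩
  have h := A.le_opNorm (fun _ => x)
  have h2 := φ.le_opNorm (A fun _ => x)
  simp [hx] at h
  rw [hφ, one_mul] at h2
  exact h2.trans h

lemma le_polyNorm {k : ℕ} (A : ContinuousMultilinearMap 𝕜 (fun _ : Fin k => X) X) {x : X}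
    (hx : ‖x‖ = 1) : ‖A (fun _ => x)‖ ≤ polyNorm A :=
  le_csSup (bdd_polyNorm A) ⟨x, hx, rfl⟩

lemma le_numRadius {k : ℕ} (A : ContinuousMultilinearMap 𝕜 (fun _ : Fin k => X) X) {x : X}
    {φ : X →L[𝕜] 𝕜} (hx : ‖x‖ = 1) (hφ : ‖φ‖ = 1) (h : φ x = 1) :
    ‖φ (A (fun _ => x))‖ ≤ numRadius A :=
  le_csSup (bdd_numRadius A) ⟨x, φ, hx, hφ, h, rfl⟩

lemma numRadius_nonneg {k : ℕ} (A : ContinuousMultilinearMap 𝕜 (fun _ : Fin k => X) X) :
    0 ≤ numRadius A := by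
  unfold numRadius
  apply Real.sSup_nonneg
  rintro r ⟨x, φ, -, -, -, rfl⟩
  positivity

lemma polyIndex_le {k : ℕ} {c : ℝ} (A : ContinuousMultilinearMap 𝕜 (fun _ : Fin k => X) X)
    (hc : 0 ≤ c) (h1 : polyNorm A = 1)
    (h2 : ∀ (x : X) (φ : X →L[𝕜] 𝕜), ‖x‖ = 1 → ‖φ‖ = 1 → φ x = 1 → ‖φ (A (fun _ => x))‖ ≤ c) :
    polyIndex 𝕜 X k ≤ c := by
  have h3 : numRadius A ≤ c := by
    unfold numRadius
    apply Real.sSup_le
    · rintro r ⟨x, φ, hx, hφ, h, rfl⟩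
      exact h2 x φ hx hφ h
    · exact hc
  refine le_trans ?_ h3
  unfold polyIndex
  apply csInf_le
  · refine ⟨0, ?_⟩
    rintro r ⟨B, -, rfl⟩
    exact numRadius_nonneg B
  · exact ⟨A, h1, rfl⟩

lemma polyNorm_eq {k : ℕ} {c : ℝ} (A : ContinuousMultilinearMap 𝕜 (fun _ : Fin k => X) X)
    (hc : 0 ≤ c) (h1 : ∀ x : X, ‖x‖ = 1 → ‖A (fun _ => x)‖ ≤ c)
    {x : X} (hx : ‖x‖ = 1) (h2 : ‖A (fun _ => x)‖ = c) : polyNorm A = c := by
  refine le_antisymm ?_ (h2 ▸ le_polyNorm A hx)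
  unfold polyNorm
  apply Real.sSup_le
  · rintro r ⟨x, hx, rfl⟩
    exact h1 x hx
  · exact hc

end Pool.Agent.Y473.NI
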