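import Pool.Agent.Y473.NI.Basic

/-!
# The real space `C(K)`
-/

set_option autoImplicit false

namespace Pool.Agent.Y473.NI

open ContinuousMap

variable {K : Type} [TopologicalSpace K] [CompactSpace K]

/-- The polynomial `P x t = x(s₀)² - x(t)²/2`. -/
noncomputable def bCK (s₀ : K) : C(K, ℝ) →L[ℝ] C(K, ℝ) →L[ℝ] C(K, ℝ) :=
  LinearMap.mkContinuous₂
    (LinearMap.mk₂ ℝ (fun x y => ContinuousMap.const K (x s₀ * y s₀) - (1 / 2 : ℝ) • (x * y))
      (by intro x y z; ext t; simp; ring) (by intro c x y; ext t; simp; ring)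
      (by intro x y z; ext t; simp; ring) (by intro c x y; ext t; simp; ring))
    2 (by
      intro x y
      rw [ContinuousMap.norm_le _ (by positivity)]
      intro t
      have h1 : ‖x s₀‖ ≤ ‖x‖ := x.norm_coe_le_norm s₀
      have h2 : ‖y s₀‖ ≤ ‖y‖ := y.norm_coe_le_norm s₀
      have h3 : ‖x t‖ ≤ ‖x‖ := x.norm_coe_le_norm t
      have h4 : ‖y t‖ ≤ ‖y‖ := y.norm_coe_le_norm t
      have h5 : ‖x s₀ * y s₀‖ ≤ ‖x‖ * ‖y‖ := by
        rw [norm_mul]; gcongr
      have h6 : ‖x t * y t‖ ≤ ‖x‖ * ‖y‖ := by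
        rw [norm_mul]; gcongr
      simp only [LinearMap.mk₂_apply, ContinuousMap.sub_apply, ContinuousMap.const_apply,
        ContinuousMap.smul_apply, ContinuousMap.mul_apply, smul_eq_mul]
      rw [Real.norm_eq_abs, abs_le] at *
      constructor <;> linarith [h5.1, h5.2, h6.1, h6.2])

lemma bCK_apply (s₀ : K) (x : C(K, ℝ)) (t : K) :
    ofBilin (bCK s₀) (fun _ => x) t = x s₀ ^ 2 - x t ^ 2 / 2 := by
  simp [bCK]; ring

lemma coe_le_one {x : C(K, ℝ)} (hx : ‖x‖ = 1) (t : K) : |x t| ≤ 1 := by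
  have := x.norm_coe_le_norm t
  rwa [hx, Real.norm_eq_abs] at this

lemma bCK_numRadius (s₀ : K) (x : C(K, ℝ)) (φ : C(K, ℝ) →L[ℝ] ℝ) (hx : ‖x‖ = 1) (hφ : ‖φ‖ = 1)
    (h : φ x = 1) : ‖φ (ofBilin (bCK s₀) (fun _ => x))‖ ≤ 1 / 2 := by
  set y := ofBilin (bCK s₀) (fun _ => x) with hy
  have hyt : ∀ t, y t = x s₀ ^ 2 - x t ^ 2 / 2 := bCK_apply s₀ x
  have hc := abs_le.1 (coe_le_one hx s₀)
  have h1 : ‖x + y‖ ≤ 3 / 2 := by
    rw [ContinuousMap.norm_le _ (by norm_num)]
    intro t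
    have ht := abs_le.1 (coe_le_one hx t)
    rw [Real.norm_eq_abs, ContinuousMap.add_apply, hyt, abs_le]
    constructor <;> nlinarith [ht.1, ht.2, hc.1, hc.2]
  have h2 : ‖x - y‖ ≤ 3 / 2 := by
    rw [ContinuousMap.norm_le _ (by norm_num)]
    intro t
    have ht := abs_le.1 (coe_le_one hx t)
    rw [Real.norm_eq_abs, ContinuousMap.sub_apply, hyt, abs_le]
    constructor <;> nlinarith [ht.1, ht.2, hc.1, hc.2]
  have h3 : ‖φ (x + y)‖ ≤ 3 / 2 := (φ.le_opNorm _).trans (by rw [hφ, one_mul]; exact h1)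
  have h4 : ‖φ (x - y)‖ ≤ 3 / 2 := (φ.le_opNorm _).trans (by rw [hφ, one_mul]; exact h2)
  rw [map_add, h, Real.norm_eq_abs, abs_le] at h3
  rw [map_sub, h, Real.norm_eq_abs, abs_le] at h4
  rw [Real.norm_eq_abs, abs_le]
  constructor <;> linarith [h3.1, h3.2, h4.1, h4.2]

lemma bCK_polyNorm [T2Space K] {s₀ t₀ : K} (hst : s₀ ≠ t₀) :
    polyNorm (ofBilin (bCK s₀)) = 1 := by
  obtain ⟨f, hf0, hf1, hf⟩ := exists_continuous_zero_one_of_isClosed
    (isClosed_singleton (x := t₀)) (isClosed_singleton (x := s₀))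
    (by simpa using fun h => hst h.symm)
  have h0 : f t₀ = 0 := hf0 (by simp)
  have h1 : f s₀ = 1 := hf1 (by simp)
  have hn : ‖f‖ = 1 := by
    apply le_antisymm
    · rw [ContinuousMap.norm_le _ (by norm_num)]
      intro t
      rw [Real.norm_eq_abs, abs_le]
      constructor <;> linarith [(hf t).1, (hf t).2]
    · have := f.norm_coe_le_norm s₀
      rwa [h1, norm_one] at this
  have key : ∀ x : C(K, ℝ), ‖x‖ = 1 → ‖ofBilin (bCK s₀) (fun _ => x)‖ ≤ 1 := by
    intro x hx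
    rw [ContinuousMap.norm_le _ (by norm_num)]
    intro t
    have ht := abs_le.1 (coe_le_one hx t)
    have hc := abs_le.1 (coe_le_one hx s₀)
    rw [Real.norm_eq_abs, bCK_apply, abs_le]
    constructor <;> nlinarith [ht.1, ht.2, hc.1, hc.2]
  refine polyNorm_eq _ (by norm_num) key hn (le_antisymm (key f hn) ?_)
  have := (ofBilin (bCK s₀) (fun _ => f)).norm_coe_le_norm t₀
  rw [bCK_apply, h0, h1] at this
  simpa using this

theorem index_CK_le [T2Space K] [Nontrivial K] : polyIndex ℝ C(K, ℝ) 2 ≤ 1 / 2 := by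
  obtain ⟨s, t, hst⟩ := exists_pair_ne K
  exact polyIndex_le _ (by norm_num) (bCK_polyNorm hst)
    (fun x φ hx hφ h => bCK_numRadius s x φ hx hφ h)

/-- expansion of a `2`-homogeneous polynomial along a line -/
lemma quad {X : Type} [NormedAddCommGroup X] [NormedSpace ℝ X]
    (A : ContinuousMultilinearMap ℝ (fun _ : Fin 2 => X) X) (u w : X) :
    ∃ C : X, ∀ r : ℝ, A (fun _ => u + r • w) = A (fun _ => u) + r • C + r ^ 2 • A (fun _ => w) := by
  have e : ∀ x : X, (fun _ : Fin 2 => x) = ![x, x] := by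
    intro x; ext i; fin_cases i <;> rfl
  have a0 : ∀ a b c : X, A ![a + b, c] = A ![a, c] + A ![b, c] := fun a b c =>
    A.cons_add ![c] a b
  have s0 : ∀ (r : ℝ) (a c : X), A ![r • a, c] = r • A ![a, c] := fun r a c =>
    A.cons_smul ![c] r a
  have u1 : ∀ a x : X, Function.update ![a, (0 : X)] 1 x = ![a, x] := by
    intro a x; ext i; fin_cases i <;> rfl
  have a1 : ∀ a b c : X, A ![a, b + c] = A ![a, b] + A ![a, c] := by
    intro a b c
    have := A.map_update_add ![a, 0] 1 b c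
    rwa [u1, u1, u1] at this
  have s1 : ∀ (r : ℝ) (a c : X), A ![a, r • c] = r • A ![a, c] := by
    intro r a c
    have := A.map_update_smul ![a, 0] 1 r c
    rwa [u1, u1] at this
  refine ⟨A ![u, w] + A ![w, u], fun r => ?_⟩
  rw [e, e, e, a0, a1, a1, s0, s0, s1, s1]
  module

lemma eval_norm [Nonempty K] (t : K) : ‖(ContinuousMap.evalCLM ℝ t : C(K, ℝ) →L[ℝ] ℝ)‖ = 1 := by
  apply le_antisymm
  · apply ContinuousLinearMap.opNorm_le_bound _ (by norm_num)
    intro x
    rw [one_mul]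
    exact x.norm_coe_le_norm t
  · have h := (ContinuousMap.evalCLM ℝ t : C(K, ℝ) →L[ℝ] ℝ).le_opNorm (ContinuousMap.const K 1)
    have h1 : ‖(ContinuousMap.const K (1 : ℝ))‖ ≤ 1 := by
      rw [ContinuousMap.norm_le _ (by norm_num)]
      intro t; simp
    have h2 : (ContinuousMap.evalCLM ℝ t : C(K, ℝ) →L[ℝ] ℝ) (ContinuousMap.const K 1) = 1 := rfl
    rw [h2, norm_one] at h
    nlinarith [norm_nonneg (ContinuousMap.evalCLM ℝ t : C(K, ℝ) →L[ℝ] ℝ),
      norm_nonneg (ContinuousMap.const K (1 : ℝ))]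

lemma eval_le [Nonempty K] {k : ℕ} (A : ContinuousMultilinearMap ℝ (fun _ : Fin k => C(K, ℝ)) C(K, ℝ))
    {y : C(K, ℝ)} (hy : ‖y‖ ≤ 1) {t : K} (ht : |y t| = 1) :
    |A (fun _ => y) t| ≤ numRadius A := by
  have hy1 : ‖y‖ = 1 := by
    apply le_antisymm hy
    have := y.norm_coe_le_norm t
    rwa [Real.norm_eq_abs, ht] at this
  rcases abs_eq (zero_le_one' ℝ) |>.1 ht with h | h
  · exact le_numRadius A (φ := ContinuousMap.evalCLM ℝ t) hy1 (eval_norm t) h
  · have h2 := le_numRadius A (φ := -(ContinuousMap.evalCLM ℝ t : C(K, ℝ) →L[ℝ] ℝ)) hy1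
      (by rw [norm_neg]; exact eval_norm t)
      (by show -(y t) = 1; rw [h]; norm_num)
    have h3 : (-(ContinuousMap.evalCLM ℝ t : C(K, ℝ) →L[ℝ] ℝ)) (A fun _ => y) =
      -(A (fun _ => y) t) := rfl
    rwa [h3, norm_neg, Real.norm_eq_abs] at h2

theorem half_le_numRadius [Nonempty K]
    (A : ContinuousMultilinearMap ℝ (fun _ : Fin 2 => C(K, ℝ)) C(K, ℝ)) (h1 : polyNorm A = 1) :
    1 / 2 ≤ numRadius A := by
  apply le_of_forall_pos_le_add
  intro ε hε
  -- an almost norming point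
  have hne : {r : ℝ | ∃ x : C(K, ℝ), ‖x‖ = 1 ∧ r = ‖A (fun _ => x)‖}.Nonempty := by
    refine ⟨_, ContinuousMap.const K 1, ?_, rfl⟩
    apply le_antisymm
    · rw [ContinuousMap.norm_le _ (by norm_num)]
      intro t; simp
    · obtain ⟨t⟩ := ‹Nonempty K›
      have := (ContinuousMap.const K (1 : ℝ)).norm_coe_le_norm t
      simpa using this
  have hlt : 1 - ε < sSup {r : ℝ | ∃ x : C(K, ℝ), ‖x‖ = 1 ∧ r = ‖A (fun _ => x)‖} := by
    have : polyNorm A = sSup {r : ℝ | ∃ x : C(K, ℝ), ‖x‖ = 1 ∧ r = ‖A (fun _ => x)‖} := rfl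
    rw [← this, h1]; linarith
  obtain ⟨_, ⟨x, hx, rfl⟩, hxr⟩ := exists_lt_of_lt_csSup hne hlt
  obtain ⟨t, ht⟩ : ∃ t : K, 1 - ε < |A (fun _ => x) t| := by
    by_contra hcon
    push Not at hcon
    obtain ⟨t0⟩ := ‹Nonempty K›
    have h0 : 0 ≤ 1 - ε := (abs_nonneg _).trans (hcon t0)
    have : ‖A (fun _ => x)‖ ≤ 1 - ε := by
      rw [ContinuousMap.norm_le _ h0]
      exact hcon
    linarith
  -- continuity at x
  have hcont : Continuous fun z : C(K, ℝ) => A (fun _ => z) :=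
    A.cont.comp (continuous_pi fun _ => continuous_id)
  obtain ⟨δ, hδ, hδ2⟩ := Metric.continuous_iff.1 hcont x ε hε
  -- the bump function
  let h : C(K, ℝ) := ⟨fun s => max 0 (1 - |x s - x t| / (δ / 2)), by fun_prop⟩
  have hh : ∀ s, h s = max 0 (1 - |x s - x t| / (δ / 2)) := fun s => rfl
  have hh0 : ∀ s, 0 ≤ h s := fun s => le_max_left _ _
  have hh1 : ∀ s, h s ≤ 1 := by
    intro s
    rw [hh]
    apply max_le (by norm_num)
    have : 0 ≤ |x s - x t| / (δ / 2) := by positivity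
    linarith
  have hht : h t = 1 := by simp [hh]
  have hhx : ∀ s, h s * |x s - x t| ≤ δ / 2 := by
    intro s
    by_cases hc : |x s - x t| ≤ δ / 2
    · nlinarith [hh0 s, hh1 s, abs_nonneg (x s - x t)]
    · have : h s = 0 := by
        rw [hh]
        apply max_eq_left
        push Not at hc
        have : 1 ≤ |x s - x t| / (δ / 2) := by
          rw [le_div_iff₀ (by positivity)]; linarith
        linarith
      rw [this, zero_mul]; positivity
  obtain ⟨C, hC⟩ := quad A ((1 - h) * x) h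
  have hxt := abs_le.1 (coe_le_one hx t)
  -- values on the line
  have hyn : ∀ r : ℝ, |r| ≤ 1 → ‖(1 - h) * x + r • h‖ ≤ 1 := by
    intro r hr
    rw [ContinuousMap.norm_le _ (by norm_num)]
    intro s
    have hs := abs_le.1 (coe_le_one hx s)
    have hr' := abs_le.1 hr
    simp only [ContinuousMap.add_apply, ContinuousMap.mul_apply, ContinuousMap.sub_apply,
      ContinuousMap.one_apply, ContinuousMap.smul_apply, smul_eq_mul]
    rw [Real.norm_eq_abs, abs_le]
    constructor <;> nlinarith [hh0 s, hh1 s, hs.1, hs.2, hr'.1, hr'.2]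
  have hyt : ∀ r : ℝ, ((1 - h) * x + r • h) t = r := by
    intro r
    simp [hht]
  have e1 := eval_le A (hyn 1 (by norm_num)) (t := t) (by rw [hyt]; norm_num)
  have e2 := eval_le A (hyn (-1) (by norm_num)) (t := t) (by rw [hyt]; norm_num)
  have e3 : |A (fun _ => h) t| ≤ numRadius A := by
    apply eval_le A
    · rw [ContinuousMap.norm_le _ (by norm_num)]
      intro s
      rw [Real.norm_eq_abs, abs_le]
      constructor <;> linarith [hh0 s, hh1 s]
    · rw [hht]; norm_num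
  have e4 : 1 - 2 * ε < |A (fun _ => (1 - h) * x + x t • h) t| := by
    have hd : dist ((1 - h) * x + x t • h) x < δ := by
      rw [dist_eq_norm]
      have : ‖(1 - h) * x + x t • h - x‖ ≤ δ / 2 := by
        rw [ContinuousMap.norm_le _ (by positivity)]
        intro s
        have : ((1 - h) * x + x t • h - x) s = - (h s * (x s - x t)) := by
          simp; ring
        rw [this, norm_neg, norm_mul, Real.norm_eq_abs, Real.norm_eq_abs, abs_of_nonneg (hh0 s)]
        exact hhx s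
      linarith
    have h5 := hδ2 _ hd
    rw [dist_eq_norm] at h5
    have h6 := (A (fun _ => (1 - h) * x + x t • h) - A (fun _ => x)).norm_coe_le_norm t
    rw [ContinuousMap.sub_apply, Real.norm_eq_abs] at h6
    have h7 := abs_sub_abs_le_abs_sub (A (fun _ => x) t) (A (fun _ => (1 - h) * x + x t • h) t)
    rw [abs_sub_comm] at h7
    linarith
  rw [hC] at e1 e2 e4
  simp only [ContinuousMap.add_apply, ContinuousMap.smul_apply, smul_eq_mul] at e1 e2 e4
  set a := A (fun _ => (1 - h) * x) t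
  set b := C t
  set c := A (fun _ => h) t
  set v := numRadius A
  rw [abs_le] at e1 e2 e3
  have e5 : |a + x t * b + x t ^ 2 * c| ≤ 2 * v := by
    rw [abs_le]
    constructor <;> nlinarith [e1.1, e1.2, e2.1, e2.2, e3.1, e3.2, hxt.1, hxt.2,
      mul_nonneg (by linarith [hxt.1] : 0 ≤ 1 + x t) (by linarith [hxt.2] : 0 ≤ 1 - x t)]
  linarith

end Pool.Agent.Y473.NI
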