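import Pool.Agent.Y473.NI.Lsum

/-!
# The spaces `L¹(μ)`
-/

set_option autoImplicit false

namespace Pool.Agent.Y473.NI

open MeasureTheory

variable {𝕜 : Type} [RCLike 𝕜] {Ω : Type} [MeasurableSpace Ω] {μ : Measure Ω}

/-- Multiplication by the indicator of `s` on `L¹(μ)`, as a linear map. -/
noncomputable def indLin (𝕜 : Type) [RCLike 𝕜] (μ : Measure Ω) {s : Set Ω} (hs : MeasurableSet s) :
    Lp 𝕜 1 μ →ₗ[𝕜] Lp 𝕜 1 μ where
  toFun f := ((Lp.memLp f).indicator hs).toLp _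
  map_add' f g := by
    rw [← MemLp.toLp_add]
    apply MemLp.toLp_congr
    filter_upwards [Lp.coeFn_add f g] with t ht
    rw [Pi.add_apply]
    by_cases h : t ∈ s
    · rw [Set.indicator_of_mem h, Set.indicator_of_mem h, Set.indicator_of_mem h, ht, Pi.add_apply]
    · rw [Set.indicator_of_notMem h, Set.indicator_of_notMem h, Set.indicator_of_notMem h,
        add_zero]
  map_smul' c f := by
    rw [RingHom.id_apply, ← MemLp.toLp_const_smul]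
    apply MemLp.toLp_congr
    filter_upwards [Lp.coeFn_smul c f] with t ht
    rw [Pi.smul_apply]
    by_cases h : t ∈ s
    · rw [Set.indicator_of_mem h, Set.indicator_of_mem h, ht, Pi.smul_apply]
    · rw [Set.indicator_of_notMem h, Set.indicator_of_notMem h, smul_zero]

lemma indLin_apply {s : Set Ω} (hs : MeasurableSet s) (f : Lp 𝕜 1 μ) :
    indLin 𝕜 μ hs f = ((Lp.memLp f).indicator hs).toLp (s.indicator f) := rfl

lemma indLin_ae {s : Set Ω} (hs : MeasurableSet s) (f : Lp 𝕜 1 μ) :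
    indLin 𝕜 μ hs f =ᵐ[μ] s.indicator f := by
  rw [indLin_apply]
  exact MemLp.coeFn_toLp _

lemma indLin_norm {s : Set Ω} (hs : MeasurableSet s) (f : Lp 𝕜 1 μ) :
    ‖indLin 𝕜 μ hs f‖ + ‖f - indLin 𝕜 μ hs f‖ = ‖f‖ := by
  rw [L1.norm_eq_integral_norm, L1.norm_eq_integral_norm, L1.norm_eq_integral_norm]
  have h1 : (fun t => ‖indLin 𝕜 μ hs f t‖) =ᵐ[μ] s.indicator (fun t => ‖f t‖) := by
    filter_upwards [indLin_ae hs f] with t ht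
    rw [ht]
    by_cases h : t ∈ s <;> simp [Set.indicator, h]
  have h2 : (fun t => ‖(f - indLin 𝕜 μ hs f : Lp 𝕜 1 μ) t‖) =ᵐ[μ]
      sᶜ.indicator (fun t => ‖f t‖) := by
    filter_upwards [indLin_ae hs f, Lp.coeFn_sub f (indLin 𝕜 μ hs f)] with t ht ht2
    rw [ht2, Pi.sub_apply, ht]
    by_cases h : t ∈ s <;> simp [Set.indicator, h]
  rw [integral_congr_ae h1, integral_congr_ae h2, integral_indicator hs,
    integral_indicator hs.compl]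
  exact integral_add_compl hs (L1.integrable_coeFn f).norm

/-- Multiplication by the indicator of `s` on `L¹(μ)`. -/
noncomputable def indL (𝕜 : Type) [RCLike 𝕜] (μ : Measure Ω) {s : Set Ω} (hs : MeasurableSet s) :
    Lp 𝕜 1 μ →L[𝕜] Lp 𝕜 1 μ :=
  (indLin 𝕜 μ hs).mkContinuous 1 (by
    intro f
    rw [one_mul, ← indLin_norm hs f]
    linarith [norm_nonneg (f - indLin 𝕜 μ hs f)])

lemma indL_apply {s : Set Ω} (hs : MeasurableSet s) (f : Lp 𝕜 1 μ) :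
    indL 𝕜 μ hs f = indLin 𝕜 μ hs f := rfl

lemma indL_norm {s : Set Ω} (hs : MeasurableSet s) (f : Lp 𝕜 1 μ) :
    ‖indL 𝕜 μ hs f‖ + ‖f - indL 𝕜 μ hs f‖ = ‖f‖ := by
  rw [indL_apply]
  exact indLin_norm hs f

theorem exists_good {s u : Set Ω} (hs : MeasurableSet s) (hu : MeasurableSet u)
    (hsu : Disjoint s u) (hs0 : μ s ≠ 0) (hs1 : μ s ≠ ⊤) (hu0 : μ u ≠ 0) (hu1 : μ u ≠ ⊤) :
    ∃ A : ContinuousMultilinearMap 𝕜 (fun _ : Fin 2 => Lp 𝕜 1 μ) (Lp 𝕜 1 μ), polyNorm A = 1 ∧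
      ∀ (x : Lp 𝕜 1 μ) (φ : Lp 𝕜 1 μ →L[𝕜] 𝕜), ‖x‖ = 1 → ‖φ‖ = 1 → φ x = 1 →
        ‖φ (A (fun _ => x))‖ ≤ 1 / 2 := by
  have hI : ∀ f : Lp 𝕜 1 μ, ‖L1.integralCLM' (E := 𝕜) (μ := μ) 𝕜 f‖ ≤ ‖f‖ := by
    intro f
    rw [← L1.integral_eq' 𝕜 f]
    exact L1.norm_integral_le f
  have hIc : ∀ {w : Set Ω} (hw : MeasurableSet w) (hw1 : μ w ≠ ⊤) (c : 𝕜),
      L1.integralCLM' (E := 𝕜) (μ := μ) 𝕜 (indicatorConstLp 1 hw hw1 c) = μ.real w • c := by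
    intro w hw hw1 c
    rw [← L1.integral_eq' 𝕜, L1.integral_eq_integral, integral_indicatorConstLp]
  have hpos : ∀ {w : Set Ω}, μ w ≠ 0 → μ w ≠ ⊤ → 0 < μ.real w := fun h0 h1 =>
    ENNReal.toReal_pos h0 h1
  have hn : ∀ {w : Set Ω} (hw : MeasurableSet w) (hw0 : μ w ≠ 0) (hw1 : μ w ≠ ⊤),
      ‖indicatorConstLp 1 hw hw1 (((μ.real w)⁻¹ : ℝ) : 𝕜)‖ = 1 := by
    intro w hw hw0 hw1
    rw [norm_indicatorConstLp one_ne_zero ENNReal.one_ne_top]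
    have := hpos hw0 hw1
    simp [abs_of_pos this, this.ne']
  have hR : ∀ f : Lp 𝕜 1 μ, ‖indL 𝕜 μ hs f‖ + ‖f - indL 𝕜 μ hs f‖ = ‖f‖ := indL_norm hs
  have hgood : polyNorm (ofBilin (bL (indL 𝕜 μ hs) (L1.integralCLM' (E := 𝕜) (μ := μ) 𝕜))) = 1 →
      ∃ A : ContinuousMultilinearMap 𝕜 (fun _ : Fin 2 => Lp 𝕜 1 μ) (Lp 𝕜 1 μ), polyNorm A = 1 ∧
      ∀ (x : Lp 𝕜 1 μ) (φ : Lp 𝕜 1 μ →L[𝕜] 𝕜), ‖x‖ = 1 → ‖φ‖ = 1 → φ x = 1 →
        ‖φ (A (fun _ => x))‖ ≤ 1 / 2 := by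
    intro h
    exact ⟨_, h, fun x φ hx hφ h => bL_numRadius hR hI x φ hx hφ h⟩
  apply hgood
  refine bL_polyNorm (R := indL 𝕜 μ hs) (I := L1.integralCLM' (E := 𝕜) (μ := μ) 𝕜)
    hR hI (hn hs hs0 hs1) (hn hu hu0 hu1) ?_ ?_ ?_ ?_
  · apply Lp.ext
    rw [indL_apply]
    refine (indLin_ae hs _).trans ?_
    filter_upwards [indicatorConstLp_coeFn (p := 1) (hs := hs) (hμs := hs1)
      (c := (((μ.real s)⁻¹ : ℝ) : 𝕜))] with t ht
    by_cases h : t ∈ s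
    · rw [Set.indicator_of_mem h]
    · rw [Set.indicator_of_notMem h, ht, Set.indicator_of_notMem h]
  · apply Lp.ext
    rw [indL_apply]
    refine (indLin_ae hs _).trans ?_
    filter_upwards [indicatorConstLp_coeFn (p := 1) (hs := hu) (hμs := hu1)
      (c := (((μ.real u)⁻¹ : ℝ) : 𝕜)), Lp.coeFn_zero 𝕜 1 μ] with t ht h0
    rw [h0]
    by_cases h : t ∈ s
    · have h' : t ∉ u := Set.disjoint_left.1 hsu h
      rw [Set.indicator_of_mem h, ht, Set.indicator_of_notMem h', Pi.zero_apply]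
    · rw [Set.indicator_of_notMem h, Pi.zero_apply]
  · rw [hIc, Algebra.smul_def]
    have := (hpos hs0 hs1).ne'
    simp [this]
  · rw [hIc, Algebra.smul_def]
    have := (hpos hu0 hu1).ne'
    simp [this]

theorem index_L1_le {s u : Set Ω} (hs : MeasurableSet s) (hu : MeasurableSet u)
    (hsu : Disjoint s u) (hs0 : μ s ≠ 0) (hs1 : μ s ≠ ⊤) (hu0 : μ u ≠ 0) (hu1 : μ u ≠ ⊤) :
    polyIndex 𝕜 (Lp 𝕜 1 μ) 2 ≤ 1 / 2 := by
  obtain ⟨A, h1, h2⟩ := exists_good (𝕜 := 𝕜) hs hu hsu hs0 hs1 hu0 hu1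
  exact polyIndex_le A (by norm_num) h1 h2

theorem exists_norm_one {s u : Set Ω} (hs : MeasurableSet s) (hu : MeasurableSet u)
    (hsu : Disjoint s u) (hs0 : μ s ≠ 0) (hs1 : μ s ≠ ⊤) (hu0 : μ u ≠ 0) (hu1 : μ u ≠ ⊤) :
    ∃ A : ContinuousMultilinearMap 𝕜 (fun _ : Fin 2 => Lp 𝕜 1 μ) (Lp 𝕜 1 μ), polyNorm A = 1 := by
  obtain ⟨A, h1, -⟩ := exists_good (𝕜 := 𝕜) hs hu hsu hs0 hs1 hu0 hu1
  exact ⟨A, h1⟩

end Pool.Agent.Y473.NI
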