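import Pool.Agent.Y473.NI.CK
import Pool.Agent.Y473.NI.L1

/-!
# The lower bound for real `L¹(μ)`
-/

set_option autoImplicit false

namespace Pool.Agent.Y473.NI

open MeasureTheory

section abstract_part

variable {X : Type} [NormedAddCommGroup X] [NormedSpace ℝ X]

lemma homog (A : ContinuousMultilinearMap ℝ (fun _ : Fin 2 => X) X) (r : ℝ) (x : X) :
    A (fun _ => r • x) = r ^ 2 • A (fun _ => x) := by
  have := A.map_smul_univ (fun _ => r) (fun _ => x)
  simpa [Fin.prod_univ_two, sq] using this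

lemma le_two_numRadius (A : ContinuousMultilinearMap ℝ (fun _ : Fin 2 => X) X) {x y z : X}
    {ψ : X →L[ℝ] ℝ} (hψ : ∀ f, |ψ f| ≤ ‖f‖) (hx : ‖x‖ = 1) (hyz : x = y + z)
    (hn : ‖y‖ + ‖z‖ = 1) (hy : ψ y = ‖y‖) (hz : ψ z = -‖z‖) :
    |ψ (A (fun _ => x))| ≤ 2 * numRadius A := by
  set v := numRadius A with hv
  have hv0 : 0 ≤ v := numRadius_nonneg A
  have hψ1 : ‖ψ‖ ≤ 1 := by
    apply ψ.opNorm_le_bound (by norm_num)
    intro f
    rw [one_mul, Real.norm_eq_abs]
    exact hψ f
  have key : ∀ u : X, ‖u‖ = 1 → |ψ u| = 1 → |ψ (A (fun _ => u))| ≤ v := by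
    intro u hu hu2
    have hn1 : ‖ψ‖ = 1 := by
      apply le_antisymm hψ1
      have := ψ.le_opNorm u
      rwa [hu, mul_one, Real.norm_eq_abs, hu2] at this
    rcases abs_eq (zero_le_one' ℝ) |>.1 hu2 with h | h
    · exact le_numRadius A (φ := ψ) hu hn1 h
    · have h2 := le_numRadius A (φ := -ψ) hu (by rw [norm_neg]; exact hn1)
        (by rw [ContinuousLinearMap.neg_apply, h]; norm_num)
      rwa [ContinuousLinearMap.neg_apply, norm_neg, Real.norm_eq_abs] at h2
  by_cases hy0 : y = 0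
  · have hz1 : z = x := by rw [hyz, hy0, zero_add]
    have := key x hx (by rw [← hz1, hz, hz1, hx]; norm_num)
    linarith
  by_cases hz0 : z = 0
  · have hy1 : y = x := by rw [hyz, hz0, add_zero]
    have := key x hx (by rw [← hy1, hy, hy1, hx]; norm_num)
    linarith
  have ha : 0 < ‖y‖ := norm_pos_iff.2 hy0
  have hb : 0 < ‖z‖ := norm_pos_iff.2 hz0
  set a := ‖y‖ with hadef
  set b := ‖z‖ with hbdef
  obtain ⟨Y, hYdef⟩ : ∃ Y : X, Y = a⁻¹ • y := ⟨_, rfl⟩
  obtain ⟨Z, hZdef⟩ : ∃ Z : X, Z = b⁻¹ • z := ⟨_, rfl⟩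
  have hY : ‖Y‖ = 1 := by
    rw [hYdef, norm_smul, norm_inv, Real.norm_eq_abs, abs_of_pos ha, ← hadef,
      inv_mul_cancel₀ ha.ne']
  have hZ : ‖Z‖ = 1 := by
    rw [hZdef, norm_smul, norm_inv, Real.norm_eq_abs, abs_of_pos hb, ← hbdef,
      inv_mul_cancel₀ hb.ne']
  have hψY : ψ Y = 1 := by
    rw [hYdef, map_smul, hy, smul_eq_mul, inv_mul_cancel₀ ha.ne']
  have hψZ : ψ Z = -1 := by
    rw [hZdef, map_smul, hz, smul_eq_mul, mul_neg, inv_mul_cancel₀ hb.ne']
  have e1 := key _ hY (by rw [hψY]; norm_num)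
  have e2 := key _ hZ (by rw [hψZ]; norm_num)
  obtain ⟨C, hC⟩ := quad A Y Z
  have hYy : y = a • Y := by rw [hYdef, smul_smul, mul_inv_cancel₀ ha.ne', one_smul]
  have hZz : z = b • Z := by rw [hZdef, smul_smul, mul_inv_cancel₀ hb.ne', one_smul]
  have hW : ‖(1 / 2 : ℝ) • (Y + (-1 : ℝ) • Z)‖ = 1 := by
    have h2 : ψ (Y + (-1 : ℝ) • Z) = 2 := by
      rw [map_add, map_smul, hψY, hψZ]; norm_num
    have h3 := hψ (Y + (-1 : ℝ) • Z)
    rw [h2] at h3
    have h4 : ‖Y + (-1 : ℝ) • Z‖ ≤ 2 := by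
      refine (norm_add_le _ _).trans ?_
      rw [norm_smul, hY, hZ]; norm_num
    have h5 : ‖Y + (-1 : ℝ) • Z‖ = 2 := le_antisymm h4 (by simpa using h3)
    rw [norm_smul, h5]; norm_num
  have e3 := key _ hW (by
    rw [map_smul, map_add, map_smul, hψY, hψZ]; norm_num)
  rw [homog, hC, map_smul, map_add, map_add, map_smul, map_smul] at e3
  have e4 : A (fun _ => x) = a ^ 2 • (A (fun _ => Y) + (b / a) • C + (b / a) ^ 2 • A (fun _ => Z)) := by
    rw [← hC, ← homog]
    congr 1
    funext _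
    rw [hyz, smul_add, smul_smul, mul_div_cancel₀ _ ha.ne', ← hYy, ← hZz]
  have e5 : ψ (A (fun _ => x)) = a ^ 2 * ψ (A (fun _ => Y)) + a * b * ψ C +
      b ^ 2 * ψ (A (fun _ => Z)) := by
    rw [e4, map_smul, map_add, map_add, map_smul, map_smul]
    simp only [smul_eq_mul]
    field_simp
  rw [e5]
  simp only [smul_eq_mul] at e3
  set α := ψ (A (fun _ => Y))
  set γ := ψ (A (fun _ => Z))
  set β := ψ C
  rw [abs_le] at e1 e2 e3 ⊢
  have hab : 0 < a * b := mul_pos ha hb
  have hβ1 : β ≤ 6 * v := by nlinarith [e1.1, e1.2, e2.1, e2.2, e3.1, e3.2]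
  have hβ2 : -(6 * v) ≤ β := by nlinarith [e1.1, e1.2, e2.1, e2.2, e3.1, e3.2]
  have h4 : a ^ 2 + 6 * (a * b) + b ^ 2 ≤ 2 := by
    nlinarith [sq_nonneg (a - b), hn]
  have m1 := mul_le_mul_of_nonneg_left e1.2 (sq_nonneg a)
  have m2 := mul_le_mul_of_nonneg_left e1.1 (sq_nonneg a)
  have m3 := mul_le_mul_of_nonneg_left e2.2 (sq_nonneg b)
  have m4 := mul_le_mul_of_nonneg_left e2.1 (sq_nonneg b)
  have m5 := mul_le_mul_of_nonneg_left hβ1 hab.le
  have m6 := mul_le_mul_of_nonneg_left hβ2 hab.le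
  have m7 := mul_le_mul_of_nonneg_right h4 hv0
  constructor <;> nlinarith

end abstract_part

section L1_part

variable {Ω : Type} [MeasurableSpace Ω] {μ : Measure Ω}

theorem half_le_numRadius_L1
    (A : ContinuousMultilinearMap ℝ (fun _ : Fin 2 => Lp ℝ 1 μ) (Lp ℝ 1 μ))
    (h1 : polyNorm A = 1) : 1 / 2 ≤ numRadius A := by
  have hall : ∀ x : Lp ℝ 1 μ, ‖x‖ = 1 → ‖A (fun _ => x)‖ ≤ 2 * numRadius A := by
    intro x hx
    set w := A (fun _ => x) with hw
    have hs : MeasurableSet {t | 0 ≤ w t} :=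
      measurableSet_le measurable_const (Lp.stronglyMeasurable w).measurable
    have hx' : MeasurableSet {t | 0 ≤ x t} :=
      measurableSet_le measurable_const (Lp.stronglyMeasurable x).measurable
    set s := {t | 0 ≤ w t} with hsdef
    set p := {t | 0 ≤ x t} with hpdef
    let E : Set Ω := (s ∩ p) ∪ (sᶜ ∩ pᶜ)
    have hE : MeasurableSet E := (hs.inter hx').union (hs.compl.inter hx'.compl)
    let I := L1.integralCLM' (E := ℝ) (μ := μ) ℝ
    let R := indL ℝ μ hs
    let ψ : Lp ℝ 1 μ →L[ℝ] ℝ := I.comp R - I.comp (ContinuousLinearMap.id ℝ _ - R)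
    let σ : Ω → ℝ := fun t => if 0 ≤ w t then 1 else -1
    have hI : ∀ f : Lp ℝ 1 μ, I f = ∫ t, f t ∂μ := by
      intro f
      rw [← L1.integral_eq' ℝ f, L1.integral_eq_integral]
    have hψ : ∀ f : Lp ℝ 1 μ, ψ f = ∫ t, σ t * f t ∂μ := by
      intro f
      have e1 : ψ f = I (R f) - I (f - R f) := rfl
      have e2 : ψ f = I (R f - (f - R f)) := by rw [e1, ← map_sub]
      rw [e2, hI]
      apply integral_congr_ae
      filter_upwards [indLin_ae hs f, Lp.coeFn_sub (R f) (f - R f), Lp.coeFn_sub f (R f)]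
        with t h1 h2 h3
      rw [h2, Pi.sub_apply, h3, Pi.sub_apply]
      have h4 : (R f) t = s.indicator f t := h1
      rw [h4]
      by_cases h : t ∈ s
      · have : σ t = 1 := if_pos h
        rw [Set.indicator_of_mem h, this]; ring
      · have : σ t = -1 := if_neg h
        rw [Set.indicator_of_notMem h, this]; ring
    have hnorm : ∀ f : Lp ℝ 1 μ, ‖f‖ = ∫ t, |f t| ∂μ := by
      intro f
      rw [L1.norm_eq_integral_norm]
      rfl
    have hσ : ∀ t, |σ t| = 1 := by
      intro t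
      by_cases h : 0 ≤ w t <;> simp [σ, h]
    have hψ1 : ∀ f, |ψ f| ≤ ‖f‖ := by
      intro f
      rw [hψ, hnorm]
      refine (abs_integral_le_integral_abs).trans (le_of_eq ?_)
      apply integral_congr_ae
      filter_upwards with t
      rw [abs_mul, hσ, one_mul]
    have hψw : ψ w = ‖w‖ := by
      rw [hψ, hnorm]
      apply integral_congr_ae
      filter_upwards with t
      by_cases h : 0 ≤ w t
      · simp [σ, h, abs_of_nonneg h]
      · simp only [σ, h, if_false]
        rw [abs_of_neg (not_le.1 h)]; ring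
    let y := indLin ℝ μ hE x
    have hyn : ‖y‖ + ‖x - y‖ = 1 := by rw [indLin_norm hE x, hx]
    have hψy : ψ y = ‖y‖ := by
      rw [hψ, hnorm]
      apply integral_congr_ae
      filter_upwards [indLin_ae hE x] with t ht
      have ht' : y t = E.indicator x t := ht
      rw [ht']
      by_cases h : t ∈ E
      · rw [Set.indicator_of_mem h]
        rcases h with ⟨h1, h2⟩ | ⟨h1, h2⟩
        · have : σ t = 1 := if_pos h1
          rw [this, one_mul, abs_of_nonneg h2]
        · have : σ t = -1 := if_neg h1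
          have h2' : x t < 0 := not_le.1 h2
          rw [this, abs_of_neg h2']; ring
      · rw [Set.indicator_of_notMem h]; simp
    have hψz : ψ (x - y) = -‖x - y‖ := by
      rw [hψ, hnorm, ← integral_neg]
      apply integral_congr_ae
      filter_upwards [indLin_ae hE x, Lp.coeFn_sub x y] with t ht h3
      have ht' : y t = E.indicator x t := ht
      rw [h3, Pi.sub_apply, ht']
      by_cases h : t ∈ E
      · rw [Set.indicator_of_mem h]; simp
      · rw [Set.indicator_of_notMem h, sub_zero]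
        by_cases h1 : t ∈ s
        · have : σ t = 1 := if_pos h1
          have h2 : t ∉ p := fun h2 => h (Or.inl ⟨h1, h2⟩)
          have h2' : x t < 0 := not_le.1 h2
          rw [this, abs_of_neg h2']; ring
        · have : σ t = -1 := if_neg h1
          have h2 : t ∈ p := by
            by_contra h2
            exact h (Or.inr ⟨h1, h2⟩)
          have h2' : 0 ≤ x t := h2
          rw [this, abs_of_nonneg h2']; ring
    have := le_two_numRadius A hψ1 hx (y := y) (z := x - y) (by abel) hyn hψy hψz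
    rw [← hw, hψw, abs_of_nonneg (norm_nonneg _)] at this
    exact this
  have h2 : polyNorm A ≤ 2 * numRadius A := by
    unfold polyNorm
    apply Real.sSup_le
    · rintro r ⟨x, hx, rfl⟩
      exact hall x hx
    · have := numRadius_nonneg A
      linarith
  linarith

end L1_part

end Pool.Agent.Y473.NI
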