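import Pool.Agent.Y473.NI.Basic

/-!
# Spaces with a nontrivial L-summand
-/

set_option autoImplicit false

namespace Pool.Agent.Y473.NI

variable {𝕜 X : Type} [RCLike 𝕜] [NormedAddCommGroup X] [NormedSpace 𝕜 X]

/-- The bilinear map
`(x, y) ↦ (I(Rx)/2 + 2 I(x - Rx)) R y - (I(Rx) + I(x - Rx)/2) (y - R y)`. -/
noncomputable def bL (R : X →L[𝕜] X) (I : X →L[𝕜] 𝕜) : X →L[𝕜] X →L[𝕜] X :=
  (ContinuousLinearMap.lsmul 𝕜 𝕜).bilinearComp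
      ((1 / 2 : 𝕜) • (I.comp R) + (2 : 𝕜) • (I - I.comp R)) R -
  (ContinuousLinearMap.lsmul 𝕜 𝕜).bilinearComp
      (I.comp R + (1 / 2 : 𝕜) • (I - I.comp R)) (ContinuousLinearMap.id 𝕜 X - R)

lemma bL_apply (R : X →L[𝕜] X) (I : X →L[𝕜] 𝕜) (x : X) :
    ofBilin (bL R I) (fun _ => x) = (I (R x) / 2 + 2 * I (x - R x)) • R x -
      (I (R x) + I (x - R x) / 2) • (x - R x) := by
  simp only [bL, ofBilin_apply, map_sub, ContinuousLinearMap.sub_apply,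
    ContinuousLinearMap.add_apply, ContinuousLinearMap.smul_apply,
    ContinuousLinearMap.bilinearComp_apply, ContinuousLinearMap.comp_apply,
    ContinuousLinearMap.lsmul_apply, ContinuousLinearMap.id_apply, smul_eq_mul]
  module

lemma eq_of_add_one {u w : 𝕜} {a b : ℝ} (h : u + w = 1) (hu : ‖u‖ ≤ a) (hw : ‖w‖ ≤ b)
    (hab : a + b = 1) : u = (a : 𝕜) := by
  have h1 : RCLike.re u + RCLike.re w = 1 := by
    have := congrArg RCLike.re h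
    simpa using this
  have h2 : RCLike.re u ≤ ‖u‖ := RCLike.re_le_norm u
  have h3 : RCLike.re w ≤ ‖w‖ := RCLike.re_le_norm w
  have h4 : RCLike.re u = a := by linarith
  have h5 : ‖u‖ = a := by linarith
  have h6 : RCLike.im u = 0 := by
    have := RCLike.norm_sq_eq_def (z := u)
    rw [h5, h4] at this
    nlinarith
  apply RCLike.ext
  · rw [h4, RCLike.ofReal_re]
  · rw [h6, RCLike.ofReal_im]

lemma arith1 {a b A B : ℝ} (hA : 0 ≤ A) (hB : 0 ≤ B) (hAB : A + B = 1) (ha : 0 ≤ a) (hb : 0 ≤ b)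
    (haA : a ≤ A) (hbB : b ≤ B) : a * |A / 2 - B| + b * |2 * A - B / 2| ≤ 1 / 2 := by
  have h1 : a * |A / 2 - B| + b * |2 * A - B / 2| ≤ A * |A / 2 - B| + B * |2 * A - B / 2| := by
    gcongr
  refine h1.trans ?_
  obtain rfl : B = 1 - A := by linarith
  rcases abs_cases (A / 2 - (1 - A)) with ⟨h, h'⟩ | ⟨h, h'⟩ <;>
  rcases abs_cases (2 * A - (1 - A) / 2) with ⟨h2, h2'⟩ | ⟨h2, h2'⟩ <;>
  rw [h, h2] <;> nlinarith [sq_nonneg (A - 1 / 2)]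

theorem bL_numRadius {R : X →L[𝕜] X} {I : X →L[𝕜] 𝕜} (hR : ∀ x, ‖R x‖ + ‖x - R x‖ = ‖x‖)
    (hI : ∀ x, ‖I x‖ ≤ ‖x‖) (x : X) (φ : X →L[𝕜] 𝕜) (hx : ‖x‖ = 1) (hφ : ‖φ‖ = 1)
    (h : φ x = 1) : ‖φ (ofBilin (bL R I) (fun _ => x))‖ ≤ 1 / 2 := by
  have hAB : ‖R x‖ + ‖x - R x‖ = 1 := by rw [hR, hx]
  have hφ' : ∀ z, ‖φ z‖ ≤ ‖z‖ := fun z => (φ.le_opNorm z).trans (by rw [hφ, one_mul])
  have hs : φ (R x) + φ (x - R x) = 1 := by rw [← map_add]; simpa using h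
  have e1 : φ (R x) = (‖R x‖ : 𝕜) := eq_of_add_one hs (hφ' _) (hφ' _) hAB
  have e2 : φ (x - R x) = (‖x - R x‖ : 𝕜) :=
    eq_of_add_one (by rw [add_comm]; exact hs) (hφ' _) (hφ' _) (by rw [add_comm]; exact hAB)
  rw [bL_apply, map_sub, map_smul, map_smul, e1, e2]
  set A := ‖R x‖
  set B := ‖x - R x‖
  set a := I (R x)
  set b := I (x - R x)
  have ha : ‖a‖ ≤ A := hI _
  have hb : ‖b‖ ≤ B := hI _
  have e3 : (a / 2 + 2 * b) • (A : 𝕜) - (a + b / 2) • (B : 𝕜) =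
      a * ((A / 2 - B : ℝ) : 𝕜) + b * ((2 * A - B / 2 : ℝ) : 𝕜) := by
    push_cast
    simp only [smul_eq_mul]
    ring
  rw [e3]
  refine (norm_add_le _ _).trans ?_
  rw [norm_mul, norm_mul, RCLike.norm_ofReal, RCLike.norm_ofReal]
  exact arith1 (norm_nonneg _) (norm_nonneg _) hAB (norm_nonneg _) (norm_nonneg _) ha hb

theorem bL_polyNorm {R : X →L[𝕜] X} {I : X →L[𝕜] 𝕜} (hR : ∀ x, ‖R x‖ + ‖x - R x‖ = ‖x‖)
    (hI : ∀ x, ‖I x‖ ≤ ‖x‖) {y z : X} (hy : ‖y‖ = 1) (hz : ‖z‖ = 1) (hRy : R y = y)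
    (hRz : R z = 0) (hIy : I y = 1) (hIz : I z = 1) : polyNorm (ofBilin (bL R I)) = 1 := by
  have h0 : ∀ x : X, ‖x‖ = 1 → ‖ofBilin (bL R I) (fun _ => x)‖ ≤ 1 := by
    intro x hx
    have hAB : ‖R x‖ + ‖x - R x‖ = 1 := by rw [hR, hx]
    rw [bL_apply]
    refine (norm_sub_le _ _).trans ?_
    rw [norm_smul, norm_smul]
    have ha : ‖I (R x)‖ ≤ ‖R x‖ := hI _
    have hb : ‖I (x - R x)‖ ≤ ‖x - R x‖ := hI _
    have h1 : ‖I (R x) / 2 + 2 * I (x - R x)‖ ≤ ‖R x‖ / 2 + 2 * ‖x - R x‖ := by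
      refine (norm_add_le _ _).trans ?_
      rw [norm_div, norm_mul, RCLike.norm_ofNat]
      linarith
    have h2 : ‖I (R x) + I (x - R x) / 2‖ ≤ ‖R x‖ + ‖x - R x‖ / 2 := by
      refine (norm_add_le _ _).trans ?_
      rw [norm_div, RCLike.norm_ofNat]
      linarith
    have h3 := mul_le_mul_of_nonneg_right h1 (norm_nonneg (R x))
    have h4 := mul_le_mul_of_nonneg_right h2 (norm_nonneg (x - R x))
    have h5 : ‖x - R x‖ = 1 - ‖R x‖ := by linarith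
    rw [h5] at h3 h4 ⊢
    nlinarith [sq_nonneg (‖R x‖ - 1 / 2)]
  have hxR : R ((1 / 2 : 𝕜) • (y + z)) = (1 / 2 : 𝕜) • y := by
    rw [map_smul, map_add, hRy, hRz, add_zero]
  have hxS : (1 / 2 : 𝕜) • (y + z) - R ((1 / 2 : 𝕜) • (y + z)) = (1 / 2 : 𝕜) • z := by
    rw [hxR]; module
  have hhalf : ‖(1 / 2 : 𝕜)‖ = 1 / 2 := by rw [norm_div, norm_one, RCLike.norm_ofNat]
  have hx1 : ‖(1 / 2 : 𝕜) • (y + z)‖ = 1 := by
    rw [← hR, hxS, hxR, norm_smul, norm_smul, hy, hz, hhalf]; norm_num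
  refine polyNorm_eq _ (by norm_num) h0 hx1 ?_
  have e : ofBilin (bL R I) (fun _ => (1 / 2 : 𝕜) • (y + z)) =
      (5 / 8 : 𝕜) • y - (3 / 8 : 𝕜) • z := by
    rw [bL_apply, hxS, hxR, map_smul, map_smul, hIy, hIz, smul_smul, smul_smul]
    congr 2
    · simp; ring
    · simp; ring
  rw [e, ← hR]
  have e1 : R ((5 / 8 : 𝕜) • y - (3 / 8 : 𝕜) • z) = (5 / 8 : 𝕜) • y := by
    rw [map_sub, map_smul, map_smul, hRy, hRz]; simp
  rw [e1]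
  have e2 : (5 / 8 : 𝕜) • y - (3 / 8 : 𝕜) • z - (5 / 8 : 𝕜) • y = -((3 / 8 : 𝕜) • z) := by
    module
  rw [e2, norm_neg, norm_smul, norm_smul, hy, hz, norm_div, norm_div, RCLike.norm_ofNat,
    RCLike.norm_ofNat, RCLike.norm_ofNat]
  norm_num

theorem index_L_le {R : X →L[𝕜] X} {I : X →L[𝕜] 𝕜} (hR : ∀ x, ‖R x‖ + ‖x - R x‖ = ‖x‖)
    (hI : ∀ x, ‖I x‖ ≤ ‖x‖) {y z : X} (hy : ‖y‖ = 1) (hz : ‖z‖ = 1) (hRy : R y = y)
    (hRz : R z = 0) (hIy : I y = 1) (hIz : I z = 1) : polyIndex 𝕜 X 2 ≤ 1 / 2 :=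
  polyIndex_le _ (by norm_num) (bL_polyNorm hR hI hy hz hRy hRz hIy hIz)
    (fun x φ hx hφ h => bL_numRadius hR hI x φ hx hφ h)

end Pool.Agent.Y473.NI
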